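import Pool.Agent.helper3.DP.SpecG1
import Pool.Agent.helper96.DP.Basic

/-! # GBP: the blocks form a partition -/

namespace DP

theorem GBP_mem_DqF {N : ℕ} {v : V} : v ∈ DqF N ↔
    (-(4 * N : ℤ) ≤ v.1 ∧ v.1 ≤ 4 * N) ∧ -(4 * N : ℤ) ≤ v.2 ∧ v.2 ≤ 4 * N := by
  unfold DqF
  simp only [Finset.mem_product, Finset.mem_Icc]

theorem GBP_mem_zero {N m K : ℕ} {v : V} : v ∈ blk N m K 0 ↔ v ∈ DqF N ∧
    ¬ (-(K * m : ℤ) ≤ v.1 ∧ v.1 < K * m ∧ -(K * m : ℤ) ≤ v.2 ∧ v.2 < K * m) := by
  unfold blk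
  rw [if_pos rfl, Finset.mem_filter]

theorem GBP_mem_pos {N m K n : ℕ} (hn : 1 ≤ n) {v : V} : v ∈ blk N m K n ↔
    (-(K * m : ℤ) + 2 * m * ((n - 1) % K : ℕ) ≤ v.1 ∧
      v.1 ≤ -(K * m : ℤ) + 2 * m * ((n - 1) % K : ℕ) + (2 * m - 1)) ∧
    (-(K * m : ℤ) + 2 * m * ((n - 1) / K : ℕ) ≤ v.2 ∧
      v.2 ≤ -(K * m : ℤ) + 2 * m * ((n - 1) / K : ℕ) + (2 * m - 1)) := by
  unfold blk
  rw [if_neg (by omega)]
  simp only [Finset.mem_product, Finset.mem_Icc]

theorem GBP_bound {m K a : ℕ} (ha : a < K) :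
    (2 * m * (a : ℕ) : ℤ) + 2 * m ≤ 2 * (K * m : ℤ) ∧ (0 : ℤ) ≤ 2 * m * (a : ℕ) := by
  have h1 : (a : ℤ) + 1 ≤ K := by exact_mod_cast ha
  have h2 : (0 : ℤ) ≤ m := Int.natCast_nonneg m
  have h3 : (0 : ℤ) ≤ a := Int.natCast_nonneg a
  constructor
  · nlinarith
  · positivity

theorem GBP_idx {K n : ℕ} (hK : 1 ≤ K) (hn : 1 ≤ n) (hn' : n ≤ K ^ 2) :
    (n - 1) % K < K ∧ (n - 1) / K < K := by
  refine ⟨Nat.mod_lt _ hK, ?_⟩
  rw [Nat.div_lt_iff_lt_mul hK]
  rw [sq] at hn'
  omega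

theorem GBP_lt {m a a' : ℕ} (h : a < a') : (2 * m * (a : ℕ) : ℤ) + 2 * m ≤ 2 * m * (a' : ℕ) := by
  have h1 : (a : ℤ) + 1 ≤ a' := by exact_mod_cast h
  have h2 : (0 : ℤ) ≤ m := Int.natCast_nonneg m
  nlinarith

theorem GBP : GBP_stmt := by
  intro N m K hm hK hKm
  have hKm' : (K * m : ℤ) ≤ 4 * N := by exact_mod_cast hKm
  have hm' : (1 : ℤ) ≤ m := by exact_mod_cast hm
  have hKm1 : (1 : ℤ) ≤ K * m := by
    have : 1 ≤ K * m := Nat.mul_pos hK hm
    exact_mod_cast this
  have hposD : ∀ i, 1 ≤ i → i ≤ K ^ 2 → ∀ v ∈ blk N m K i,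
      -(K * m : ℤ) ≤ v.1 ∧ v.1 < K * m ∧ -(K * m : ℤ) ≤ v.2 ∧ v.2 < K * m := by
    intro i h1 h2 v hv
    rw [GBP_mem_pos h1] at hv
    obtain ⟨i1, i2⟩ := GBP_idx hK h1 h2
    have b1 := GBP_bound (m := m) i1
    have b2 := GBP_bound (m := m) i2
    omega
  refine ⟨?_, ?_, ?_, ?_, ?_⟩
  · intro i hi
    rcases Nat.eq_zero_or_pos i with h0 | h0
    · subst h0
      constructor
      · refine ⟨((4 * N : ℤ), (4 * N : ℤ)), GBP_mem_zero.2 ⟨GBP_mem_DqF.2 ?_, ?_⟩⟩
        · simp only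
          omega
        · simp only
          omega
      · intro v hv
        exact (GBP_mem_zero.1 hv).1
    · constructor
      · refine ⟨(-(K * m : ℤ) + 2 * m * ((i - 1) % K : ℕ), -(K * m : ℤ) + 2 * m * ((i - 1) / K : ℕ)),
          (GBP_mem_pos h0).2 ?_⟩
        simp only
        omega
      · intro v hv
        have := hposD i h0 hi v hv
        rw [GBP_mem_DqF]
        omega
  · have key : ∀ i ≤ K ^ 2, ∀ j ≤ K ^ 2, i < j → Disjoint (blk N m K i) (blk N m K j) := by
      intro i hi j hj hij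
      rw [Finset.disjoint_left]
      intro v hv hv'
      rcases Nat.eq_zero_or_pos i with h0 | h0
      · subst h0
        exact (GBP_mem_zero.1 hv).2 (hposD j hij hj v hv')
      · rw [GBP_mem_pos h0] at hv
        rw [GBP_mem_pos (by omega)] at hv'
        by_cases hmod : (i - 1) % K = (j - 1) % K
        · have hdiv : (i - 1) / K ≠ (j - 1) / K := by
            intro hdiv
            have e1 := Nat.mod_add_div (i - 1) K
            have e2 := Nat.mod_add_div (j - 1) K
            rw [hmod, hdiv] at e1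
            omega
          rcases lt_or_gt_of_ne hdiv with h | h
          · have := GBP_lt (m := m) h
            omega
          · have := GBP_lt (m := m) h
            omega
        · rcases lt_or_gt_of_ne hmod with h | h
          · have := GBP_lt (m := m) h
            omega
          · have := GBP_lt (m := m) h
            omega
    intro i hi j hj hij
    rcases lt_or_gt_of_ne hij with h | h
    · exact key i hi j hj h
    · exact (key j hj i hi h).symm
  · intro v hv
    by_cases hin : -(K * m : ℤ) ≤ v.1 ∧ v.1 < K * m ∧ -(K * m : ℤ) ≤ v.2 ∧ v.2 < K * m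
    · obtain ⟨a, ha⟩ : ∃ a : ℕ, (v.1 + K * m) / (2 * m) = a :=
        Int.eq_ofNat_of_zero_le (Int.ediv_nonneg (by omega) (by omega))
      obtain ⟨c, hc⟩ : ∃ c : ℕ, (v.2 + K * m) / (2 * m) = c :=
        Int.eq_ofNat_of_zero_le (Int.ediv_nonneg (by omega) (by omega))
      have ha1 := Int.emod_add_mul_ediv (v.1 + K * m) (2 * m)
      have ha2 := Int.emod_nonneg (v.1 + K * m) (b := 2 * (m : ℤ)) (by omega)
      have ha3 := Int.emod_lt_of_pos (v.1 + K * m) (b := 2 * (m : ℤ)) (by omega)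
      have hc1 := Int.emod_add_mul_ediv (v.2 + K * m) (2 * m)
      have hc2 := Int.emod_nonneg (v.2 + K * m) (b := 2 * (m : ℤ)) (by omega)
      have hc3 := Int.emod_lt_of_pos (v.2 + K * m) (b := 2 * (m : ℤ)) (by omega)
      rw [ha] at ha1
      rw [hc] at hc1
      have haK : a < K := by
        by_contra hge
        push Not at hge
        have h1 : (K : ℤ) ≤ a := by exact_mod_cast hge
        have h2 : 2 * (K * m : ℤ) ≤ 2 * m * a := by nlinarith
        omega
      have hcK : c < K := by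
        by_contra hge
        push Not at hge
        have h1 : (K : ℤ) ≤ c := by exact_mod_cast hge
        have h2 : 2 * (K * m : ℤ) ≤ 2 * m * c := by nlinarith
        omega
      have hle : c * K + a + 1 ≤ K ^ 2 := by
        have : (c + 1) * K ≤ K * K := Nat.mul_le_mul_right _ hcK
        rw [sq]
        nlinarith
      refine ⟨c * K + a + 1, hle, ?_⟩
      rw [GBP_mem_pos (by omega)]
      have e1 : (c * K + a + 1 - 1) % K = a := by
        rw [Nat.add_sub_cancel, Nat.mul_add_mod_self_right, Nat.mod_eq_of_lt haK]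
      have e2 : (c * K + a + 1 - 1) / K = c := by
        rw [Nat.add_sub_cancel, Nat.mul_comm, Nat.mul_add_div hK, Nat.div_eq_of_lt haK,
          Nat.add_zero]
      rw [e1, e2]
      omega
    · exact ⟨0, Nat.zero_le _, GBP_mem_zero.2 ⟨hv, hin⟩⟩
  · intro i h1 h2
    constructor
    · intro v hv
      have := hposD i h1 h2 v hv
      unfold blkL
      simp only [Finset.mem_product, Finset.mem_Icc]
      omega
    · intro v hv
      have hv' := (GBP_mem_pos h1).1 (Finset.mem_coe.1 hv)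
      show sd (bce m K i) v ≤ m
      rw [sd_le_iff]
      unfold bce
      simp only
      omega
  · rw [Finset.disjoint_left]
    intro v hv hv'
    unfold blkL at hv'
    simp only [Finset.mem_product, Finset.mem_Icc] at hv'
    exact (GBP_mem_zero.1 hv).2 (by omega)

end DP
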