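import Pool.Agent.helper3.DP.SpecG1
import Pool.Agent.helper96.DP.Basic

/-! # F3D: the revealed blocks determine the crossing event -/

namespace DP

theorem F3D_run_sub {Λ : Finset V} {next : Finset V → (V → Bool) → Finset V} (hR : Rule Λ next)
    (b : V → Bool) (n : ℕ) : run next b n ⊆ Λ := by
  induction n with
  | zero => simp [run]
  | succ n ih =>
    rw [run]
    exact Finset.union_subset ih (((hR _ b).1).trans Finset.sdiff_subset)

theorem F3D_run_mono {next : Finset V → (V → Bool) → Finset V} (b : V → Bool) {n n' : ℕ}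
    (h : n ≤ n') : run next b n ⊆ run next b n' := by
  induction h with
  | refl => exact Finset.Subset.refl _
  | step _ ih => exact ih.trans (by rw [run]; exact Finset.subset_union_left)

theorem F3D_run_congr {Λ : Finset V} {next : Finset V → (V → Bool) → Finset V} (hR : Rule Λ next)
    (b b' : V → Bool) (n : ℕ) (h : ∀ v ∈ run next b n, b v = b' v) :
    run next b' n = run next b n := by
  induction n with
  | zero => rfl
  | succ n ih =>
    have h1 : ∀ v ∈ run next b n, b v = b' v := fun v hv =>
      h v (F3D_run_mono b (Nat.le_succ n) hv)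
    rw [run, run, ih h1, ((hR (run next b n) b).2 b' h1)]

theorem F3D_stop {Λ : Finset V} {next : Finset V → (V → Bool) → Finset V} (hR : Rule Λ next)
    (b : V → Bool) : next (run next b Λ.card) b = ∅ := by
  have key : ∀ n, n ≤ (run next b n).card ∨ next (run next b n) b = ∅ := by
    intro n
    induction n with
    | zero => exact Or.inl (Nat.zero_le _)
    | succ n ih =>
      by_cases h0 : next (run next b n) b = ∅
      · right
        have : run next b (n + 1) = run next b n := by rw [run, h0, Finset.union_empty]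
        rw [this, h0]
      · left
        have h1 := ih.resolve_right h0
        have h2 : Disjoint (run next b n) (next (run next b n) b) :=
          (Finset.sdiff_disjoint.mono_left (hR (run next b n) b).1).symm
        rw [run, Finset.card_union_of_disjoint h2]
        have h3 := Finset.card_pos.2 (Finset.nonempty_iff_ne_empty.2 h0)
        omega
  rcases key Λ.card with h | h
  · have h1 : run next b Λ.card = Λ := Finset.eq_of_subset_of_card_le (F3D_run_sub hR b _) h
    have h2 := (hR (run next b Λ.card) b).1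
    rw [h1, sdiff_self] at h2
    rw [h1]
    exact Finset.subset_empty.1 h2
  · exact h

theorem F3D_blocks {next : Finset V → (V → Bool) → Finset V} {M : ℕ} {B : ℕ → Finset V}
    (hB : ∀ i ≤ M, ∀ j ≤ M, i ≠ j → Disjoint (B i) (B j))
    (hn : ∀ X b, next X b = ∅ ∨ ∃ i ≤ M, next X b = B i) (b : V → Bool) (n : ℕ) :
    ∀ i ≤ M, B i ⊆ run next b n ∨ Disjoint (B i) (run next b n) := by
  induction n with
  | zero => exact fun i _ => Or.inr (by simp [run])
  | succ n ih =>
    intro i hi
    rcases hn (run next b n) b with h | ⟨j, hj, h⟩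
    · rw [run, h, Finset.union_empty]
      exact ih i hi
    · rw [run, h]
      by_cases hij : i = j
      · left
        rw [hij]
        exact Finset.subset_union_right
      · rcases ih i hi with h1 | h1
        · exact Or.inl (h1.trans Finset.subset_union_left)
        · exact Or.inr (Finset.disjoint_union_right.2 ⟨h1, hB i hi j hj hij⟩)

theorem F3D_mem_DqF {N : ℕ} {v : V} : v ∈ DqF N ↔ v ∈ Dq N := by
  unfold DqF Dq rect
  simp only [Finset.mem_product, Finset.mem_Icc, Set.mem_ofPred_eq]
  tauto

/-- One direction. -/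
theorem F3D_half (hF : F3R_stmt) (hG : GBP_stmt) (N m K : ℕ) (hm : 1 ≤ m) (hK : 1 ≤ K)
    (hKm : K * m < 4 * N) (b b' : V → Bool)
    (h : ∀ v ∈ run (fnext N m K) b (DqF N).card, b v = b' v) (hb : b ∈ fq N) : b' ∈ fq N := by
  classical
  obtain ⟨hR, hn⟩ := hF N m K hm hK hKm
  obtain ⟨g1, g2, g3, g4, g5⟩ := hG N m K hm hK hKm.le
  set X := run (fnext N m K) b (DqF N).card with hX
  have hXs : X ⊆ DqF N := F3D_run_sub hR b _
  have hst : fnext N m K X b = ∅ := F3D_stop hR b
  have hbl := F3D_blocks g2 hn b (DqF N).card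
  rw [← hX] at hbl
  have h0 : ¬ Disjoint (blk N m K 0) X := by
    intro hd
    unfold fnext at hst
    rw [if_pos hd] at hst
    exact (g1 0 (Nat.zero_le _)).1.ne_empty hst
  have h0' : blk N m K 0 ⊆ X := (hbl 0 (Nat.zero_le _)).resolve_right h0
  have hno : ¬ ∃ i, 1 ≤ i ∧ i ≤ K ^ 2 ∧ Disjoint (blk N m K i) X ∧ ∃ w ∈ blk N m K i, ∃ v u : V,
      Adj v w ∧ u.1 = -(4 * N : ℤ) ∧ Conn (col b) true (X : Set V) v u := by
    intro hex
    unfold fnext at hst
    rw [if_neg h0, dif_pos hex] at hst
    exact (g1 _ (Nat.find_spec hex).2.1).1.ne_empty hst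
  obtain ⟨u, v, hu, hv, huv⟩ := hb
  have key : v ∈ X ∧ Conn (col b) true (X : Set V) v u := by
    refine Con.induct huv (fun w => w ∈ X ∧ Conn (col b) true (X : Set V) w u) ?_ ?_
    · have hur : u ∈ DqF N := F3D_mem_DqF.2 huv.mem_left
      have hu0 : u ∈ blk N m K 0 := by
        unfold blk
        rw [if_pos rfl, Finset.mem_filter]
        refine ⟨hur, fun hc => ?_⟩
        have h1 := hc.1
        rw [hu] at h1
        have h2 : ((K * m : ℕ) : ℤ) < ((4 * N : ℕ) : ℤ) := by exact_mod_cast hKm
        push_cast at h2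
        linarith
      have huX := h0' hu0
      exact ⟨huX, Con.refl ⟨huX, huv.colour_left⟩⟩
    · rintro a w ha hw haw - ⟨haX, hau⟩
      have hwX : w ∈ X := by
        by_contra hwX
        obtain ⟨i, hi, hwi⟩ := g3 w (F3D_mem_DqF.2 hw.1)
        have hi1 : 1 ≤ i := by
          rcases Nat.eq_zero_or_pos i with h1 | h1
          · rw [h1] at hwi
            exact absurd (h0' hwi) hwX
          · exact h1
        have hdis : Disjoint (blk N m K i) X :=
          (hbl i hi).resolve_left fun hs => hwX (hs hwi)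
        exact hno ⟨i, hi1, hi, hdis, w, hwi, a, u, haw, hu, hau⟩
      exact ⟨hwX, (Con.single (W := {z | z ∈ (X : Set V) ∧ col b z = true})
        ⟨hwX, hw.2⟩ haw.symm ⟨haX, ha.2⟩).trans hau⟩
  refine ⟨u, v, hu, hv, Con.mono ?_ key.2.symm⟩
  rintro w ⟨hw1, hw2⟩
  refine ⟨F3D_mem_DqF.1 (hXs hw1), ?_⟩
  rw [← hw2]
  exact (col_congr (h w hw1)).symm

theorem F3D (hF : F3R_stmt) (hG : GBP_stmt) : F3D_stmt := by
  intro N m K hm hK hKm b b' h
  refine ⟨F3D_half hF hG N m K hm hK hKm b b' h, F3D_half hF hG N m K hm hK hKm b' b ?_⟩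
  have hR := (hF N m K hm hK hKm).1
  rw [F3D_run_congr hR b b' _ h]
  exact fun v hv => (h v hv).symm

end DP
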