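import Pool.Agent.helper3.DP.SpecG1
import Pool.Agent.helper96.DP.Basic

/-! # GPV: a pivotal box of a crossing gives four arms -/

namespace DP

/-- A connection stays away from the box of radius `m` or meets it. -/
theorem GPV_split {W : Set V} {u v : V} (h : Con W u v) (y : V) (m : ℕ) :
    Con (W ∩ {z | m + 1 ≤ sd y z}) u v ∨ ∃ z, sd y z ≤ m ∧ Con W u z ∧ Con W z v := by
  refine Con.induct h (fun a => Con (W ∩ {z | m + 1 ≤ sd y z}) u a ∨
    ∃ z, sd y z ≤ m ∧ Con W u z ∧ Con W z a) ?_ ?_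
  · by_cases hu : m + 1 ≤ sd y u
    · exact Or.inl (Con.refl ⟨h.1, hu⟩)
    · exact Or.inr ⟨u, by omega, Con.refl h.1, Con.refl h.1⟩
  · rintro a b ha hb hab hua (h1 | ⟨z, h1, h2, h3⟩)
    · by_cases hbm : m + 1 ≤ sd y b
      · exact Or.inl (h1.tail hab ⟨hb, hbm⟩)
      · exact Or.inr ⟨b, by omega, hua.tail hab hb, Con.refl hb⟩
    · exact Or.inr ⟨z, h1, h2, h3.tail hab hb⟩

theorem GPV : GPV_stmt := by
  intro b B y m R a₁ a₂ d₁ d₂ hB hmR hin hpiv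
  obtain ⟨b', b'', hout, hb', hb''⟩ := hpiv
  obtain ⟨u, v, hu, hv, huv⟩ := hb'
  -- the crossing is far away at its ends
  have hfu : R + 1 ≤ sd y u := by
    by_contra hc
    have := (hin u (by omega)).1
    omega
  have hfv : R + 1 ≤ sd y v := by
    by_contra hc
    have := (hin v (by omega)).2.1
    omega
  -- outside of `box y m` the three colourings agree
  have hcol : ∀ w, m + 1 ≤ sd y w → col b' w = col b w ∧ col b'' w = col b w := by
    intro w hw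
    have hwB : w ∉ B := fun hwB => by
      have := hB hwB
      change sd y w ≤ m at this
      omega
    exact ⟨col_congr (hout w hwB).1, col_congr (hout w hwB).2⟩
  set W : Set V := {w | w ∈ rect a₁ a₂ d₁ d₂ ∧ col b' w = true} with hW
  have huv' : Con W u v := huv
  have hWb'' : W ∩ {z | m + 1 ≤ sd y z} ⊆ {w | w ∈ rect a₁ a₂ d₁ d₂ ∧ col b'' w = true} := by
    rintro w ⟨⟨h1, h2⟩, h3⟩
    exact ⟨h1, by rw [(hcol w h3).2, ← (hcol w h3).1]; exact h2⟩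
  obtain ⟨z, hz, huz, hzv⟩ : ∃ z, sd y z ≤ m ∧ Con W u z ∧ Con W z v := by
    rcases GPV_split huv' y m with h | h
    · exact absurd ⟨u, v, hu, hv, h.mono hWb''⟩ hb''
    · exact h
  obtain ⟨w₁, hw₁, huw₁, -⟩ := huz.enter (x := y) (m := m + 1) (by omega) (by omega)
  obtain ⟨w₂, hw₂, hvw₂, -⟩ := hzv.symm.enter (x := y) (m := m + 1) (by omega) (by omega)
  have hann : (W ∩ {z | m + 1 ≤ sd y z}) ∩ box y R ⊆ {w | w ∈ ann y (m + 1) R ∧ col b w = true} := by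
    rintro w ⟨⟨⟨h1, h2⟩, h3⟩, h4⟩
    exact ⟨⟨h3, h4⟩, by rw [← (hcol w h3).1]; exact h2⟩
  obtain ⟨u', hu', hwu', -⟩ := huw₁.symm.exit (x := y) (m := R) (by omega) (by omega)
  obtain ⟨v', hv', hwv', -⟩ := hvw₂.symm.exit (x := y) (m := R) (by omega) (by omega)
  refine ⟨w₁, hw₁, w₂, hw₂, ⟨u', hu', hwu'.mono hann⟩, ⟨v', hv', hwv'.mono hann⟩, fun hc => ?_⟩
  have hc' : Con {w | w ∈ rect a₁ a₂ d₁ d₂ ∧ col b'' w = true} w₁ w₂ := by
    refine Con.mono ?_ hc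
    rintro w ⟨⟨h1, h2⟩, h3⟩
    have h4 := hin w h2
    refine ⟨⟨h4.1.le, h4.2.1.le, h4.2.2.1, h4.2.2.2⟩, ?_⟩
    rw [(hcol w h1).2]
    exact h3
  exact hb'' ⟨u, v, hu, hv, ((huw₁.mono hWb'').trans hc').trans (hvw₂.mono hWb'').symm⟩

end DP
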