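import Pool.Agent.helper3.DP.SpecG1
import Pool.Agent.helper96.DP.Basic

/-! # GV2: strips are rarely crossed -/

namespace DP

open MeasureTheory

theorem GV2_measurableSet {F : Set (V → Bool)} {A : Set V} (h : Loc F A) : MeasurableSet F := by
  obtain ⟨Λ, -, hd⟩ := h
  have h1 : F = Λ.restrict ⁻¹' (Λ.restrict '' F) := by
    ext b
    constructor
    · intro hb
      exact ⟨b, hb, rfl⟩
    · rintro ⟨b', hb', he⟩
      refine (hd b' b ?_).1 hb'
      intro v hv
      exact congrFun he ⟨v, hv⟩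
  rw [h1]
  exact (Finset.measurable_restrict Λ) (Set.toFinite _).measurableSet

theorem GV2_instP : IsProbabilityMeasure P1 := by
  unfold P1
  infer_instance

theorem GV2_mono {F G : Set (V → Bool)} (h : F ⊆ G) : Pr F ≤ Pr G := by
  have := GV2_instP
  exact measureReal_mono h

theorem GV2_compl {F : Set (V → Bool)} (hF : MeasurableSet F) : Pr Fᶜ = 1 - Pr F := by
  have := GV2_instP
  unfold Pr
  rw [measureReal_compl hF]
  simp

theorem GV2_nonneg (F : Set (V → Bool)) : 0 ≤ Pr F := measureReal_nonneg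

/-- Independence for the fair coins. -/
theorem GV2_indep (hI : Bindep_stmt) (hM : Bmarg_stmt) {F F' : Set (V → Bool)} {A A' : Set V}
    (hA : Disjoint A A') (hF : Loc F A) (hF' : Loc F' A') : Pr (F ∩ F') = Pr F * Pr F' := by
  have h := hI (fun _ => 0) F Set.univ F' Set.univ A A' hA hF (Loc.univ A) hF' (Loc.univ A')
  rw [Set.inter_univ, hM _ F A hF, hM _ F' A' hF',
    hM _ (F ∩ F') (A ∪ A') (hF.inter hF')] at h
  exact h

/-- Independent events of probability at most `q`. -/
theorem GV2_prod (hI : Bindep_stmt) (hM : Bmarg_stmt) (q : ℝ) (E : ℕ → Set (V → Bool))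
    (A : ℕ → Set V) (hE : ∀ j, Loc (E j) (A j)) (hA : ∀ i j, i ≠ j → Disjoint (A i) (A j))
    (hq : ∀ j, Pr (E j) ≤ q) (M : ℕ) :
    Pr {b | ∀ j < M, b ∈ E j} ≤ q ^ M ∧ Loc {b | ∀ j < M, b ∈ E j} (⋃ j : Fin M, A j) := by
  induction M with
  | zero =>
    constructor
    · have := GV2_instP
      simp only [pow_zero]
      exact measureReal_le_one
    · have : {b : V → Bool | ∀ j < 0, b ∈ E j} = Set.univ := by
        ext b
        simp
      rw [this]
      exact Loc.univ _
  | succ M ih =>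
    obtain ⟨ih1, ih2⟩ := ih
    have he : {b | ∀ j < M + 1, b ∈ E j} = {b | ∀ j < M, b ∈ E j} ∩ E M := by
      ext b
      simp only [Set.mem_ofPred_eq, Set.mem_inter_iff]
      constructor
      · intro h
        exact ⟨fun j hj => h j (by omega), h M (by omega)⟩
      · rintro ⟨h1, h2⟩ j hj
        rcases Nat.lt_succ_iff_lt_or_eq.1 hj with h | h
        · exact h1 j h
        · rw [h]; exact h2
    have hd : Disjoint (⋃ j : Fin M, A j) (A M) := by
      rw [Set.disjoint_iUnion_left]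
      intro j
      exact hA j M (ne_of_lt j.2)
    rw [he]
    constructor
    · rw [GV2_indep hI hM hd ih2 (hE M), pow_succ]
      have h0 : 0 ≤ q := (GV2_nonneg _).trans (hq 0)
      exact mul_le_mul ih1 (hq M) (GV2_nonneg _) (pow_nonneg h0 M)
    · refine (ih2.inter (hE M)).mono ?_
      apply Set.union_subset
      · exact Set.iUnion_subset fun j => Set.subset_iUnion (fun j : Fin (M + 1) => A j) j.castSucc
      · exact Set.subset_iUnion (fun j : Fin (M + 1) => A j) (Fin.last M)

/-- The centre number `j`. -/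
def GV2_g (s : Bool) (N t j : ℕ) : V :=
  ((18 * t * j : ℤ), if s = true then (4 * N : ℤ) else -(4 * N : ℤ))

/-- A crossing of the strip excludes the white loops. -/
theorem GV2_block (hLH : LH_stmt) (c : V → Bool) (s : Bool) (N t j : ℕ) (h5 : 5 * t ≤ N)
    (hj : 18 * t * j ≤ 2 * N) (h : Strip c s N t) :
    ¬ ∃ S, Loop c false (GV2_g s N t j) (3 * t) S := by
  rintro ⟨S, hS⟩
  obtain ⟨u, v, hu, hv, huv⟩ := h
  set T : Set V := {w | -(2 * N : ℤ) ≤ w.1 ∧ w.1 ≤ 2 * N ∧
      (if s = true then (4 * N : ℤ) - 3 * t < w.2 ∧ w.2 ≤ 4 * N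
        else -(4 * N : ℤ) ≤ w.2 ∧ w.2 < -((4 * N : ℤ) - 3 * t))} with hT
  have hj' : (18 * t * j : ℤ) ≤ 2 * N := by exact_mod_cast hj
  have hj0 : (0 : ℤ) ≤ 18 * t * j := by positivity
  -- the crossing meets the column of the centre
  have hcol : ∃ w : V, w.1 = 18 * t * j ∧ Conn c true T u w := by
    have key : v.1 < 18 * t * j ∨ ∃ w : V, w.1 = 18 * t * j ∧ Conn c true T u w := by
      refine Con.induct huv (fun a => a.1 < 18 * t * j ∨
        ∃ w : V, w.1 = 18 * t * j ∧ Conn c true T u w) ?_ ?_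
      · by_cases h0 : u.1 = 18 * t * j
        · exact Or.inr ⟨u, h0, Con.refl huv.1⟩
        · left
          omega
      · rintro a b ha hb hab hua (h1 | h1)
        · by_cases h2 : b.1 = 18 * t * j
          · exact Or.inr ⟨b, h2, Con.tail hua hab hb⟩
          · left
            have h3 := hab.1
            unfold sd at h3
            have h4 : (a.1 - b.1).natAbs ≤ 1 := (le_max_left _ _).trans h3.le
            omega
        · exact Or.inr h1
    rcases key with h1 | h1
    · omega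
    · exact h1
  obtain ⟨w, hw, huw⟩ := hcol
  have hwT := huw.mem_right
  have h1 : sd (GV2_g s N t j) w ≤ 3 * t := by
    rw [sd_le_iff]
    unfold GV2_g
    have := hwT.2.2
    cases s
    · simp only [Bool.false_eq_true, if_false] at this ⊢
      push_cast
      omega
    · simp only [if_true] at this ⊢
      push_cast
      omega
  have h2 : 3 * (3 * t) ≤ sd (GV2_g s N t j) u := by
    unfold sd GV2_g
    refine le_trans ?_ (le_max_left _ _)
    simp only
    omega
  obtain ⟨z, hz, hwz⟩ := hLH c false _ _ S hS {w | w ∈ T ∧ c w = true} w u huw.symm h1 h2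
  obtain ⟨l, u₀, hl, -, hSl⟩ := hS
  have hz1 : c z = false := by
    have : z ∈ l := by
      rw [hSl] at hz
      exact hz
    exact (hl.2.2.2 z this).2.2
  have hz2 : c z = true := (Con.mem_right hwz).2
  rw [hz1] at hz2
  exact absurd hz2 (by decide)

theorem GV2 (hLH : LH_stmt) (hC1 : C1_stmt) (hI : Bindep_stmt) (hM : Bmarg_stmt)
    (hL : GLL_stmt) : GV2_stmt := by
  obtain ⟨c₀, hc₀, ℓ₀, hℓ₀, hC⟩ := hC1
  -- number of loops
  obtain ⟨M, hMq⟩ : ∃ M : ℕ, (max 0 (1 - c₀)) ^ M ≤ 1 / 8 := by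
    obtain ⟨M, hM⟩ := exists_pow_lt_of_lt_one (show (0 : ℝ) < 1 / 8 by norm_num)
      (show max 0 (1 - c₀) < 1 from max_lt one_pos (by linarith))
    exact ⟨M, hM.le⟩
  refine ⟨9 * M + 3, by omega, max ℓ₀ 1, fun t s ht => ?_⟩
  have ht1 : 1 ≤ t := le_trans (le_max_right _ _) ht
  have htℓ : ℓ₀ ≤ 3 * t := by
    have := le_trans (le_max_left ℓ₀ 1) ht
    omega
  have h2J : 9 * M + 3 + 1 ≤ 2 ^ (9 * M + 3) := Nat.lt_two_pow_self
  have h8 : 8 ≤ 2 ^ (9 * M + 3) := by
    calc 8 = 2 ^ 3 := rfl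
      _ ≤ 2 ^ (9 * M + 3) := Nat.pow_le_pow_right (by norm_num) (by omega)
  set N := 2 ^ (9 * M + 3) * t with hN
  have h5 : 5 * t ≤ N := Nat.mul_le_mul_right t (by omega)
  let E : ℕ → Set (V → Bool) := fun j =>
    (Ev fun c => ∃ S, Loop c false (GV2_g s N t j) (3 * t) S)ᶜ
  let A : ℕ → Set V := fun j =>
    {v | 3 * t < sd (GV2_g s N t j) v ∧ sd (GV2_g s N t j) v < 3 * (3 * t)}
  have hE : ∀ j, Loc (E j) (A j) := fun j => ((hL false (GV2_g s N t j) (3 * t)).1).compl
  have hA : ∀ i j, i ≠ j → Disjoint (A i) (A j) := by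
    intro i j hij
    rw [Set.disjoint_left]
    rintro v ⟨-, hv⟩ ⟨-, hv'⟩
    have h1 : ((GV2_g s N t i).1 - v.1).natAbs < 9 * t := by
      have := (le_max_left _ _).trans_lt hv
      omega
    have h2 : ((GV2_g s N t j).1 - v.1).natAbs < 9 * t := by
      have := (le_max_left _ _).trans_lt hv'
      omega
    unfold GV2_g at h1 h2
    simp only at h1 h2
    rcases lt_or_gt_of_ne hij with h | h
    · have h3 : (18 * t * i : ℤ) + 18 * t ≤ 18 * t * j := by
        have h4 : (i : ℤ) + 1 ≤ j := by exact_mod_cast h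
        nlinarith
      omega
    · have h3 : (18 * t * j : ℤ) + 18 * t ≤ 18 * t * i := by
        have h4 : (j : ℤ) + 1 ≤ i := by exact_mod_cast h
        nlinarith
      omega
  have hq : ∀ j, Pr (E j) ≤ max 0 (1 - c₀) := by
    intro j
    have h1 := hC false (GV2_g s N t j) (3 * t) htℓ
    have h2 := GV2_compl (GV2_measurableSet (hL false (GV2_g s N t j) (3 * t)).1)
    refine le_trans ?_ (le_max_right _ _)
    show Pr (Ev fun c => ∃ S, Loop c false (GV2_g s N t j) (3 * t) S)ᶜ ≤ _
    rw [h2]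
    linarith
  have hprod := (GV2_prod hI hM _ E A hE hA hq M).1
  refine le_trans (GV2_mono ?_) (hprod.trans hMq)
  intro b hb j hj
  refine GV2_block hLH (col b) s N t j h5 ?_ hb
  have : 9 * j ≤ 2 ^ (9 * M + 3) := by omega
  calc 18 * t * j = 2 * ((9 * j) * t) := by ring
    _ ≤ 2 * N := Nat.mul_le_mul_left 2 (Nat.mul_le_mul_right t this)

end DP
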